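import Pool.Agent.Helper9.FX.StP

set_option autoImplicit false

namespace Pool.Agent.Helper27.FX

open Set Complex
open Pool.Agent.Helper9.FX

private theorem aux_fst {U : Set ℂ} : ContinuousOn (fun v : EQ => v.1) {v : EQ | v.1 ∈ U} :=
  continuous_fst.continuousOn

private theorem aux_s {U : Set ℂ} {s : ℂ → ℂ} (h : SQ U s) :
    ContinuousOn (fun v : EQ => s v.1) {v : EQ | v.1 ∈ U} :=
  h.2.1.comp aux_fst (fun _ hv => hv)

private theorem aux_s0 {U : Set ℂ} {s : ℂ → ℂ} (h : SQ U s) {t : ℂ} (ht : t ∈ U) : s t ≠ 0 := by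
  intro h0
  have h1 := (h.2.2 t ht).1
  rw [h0] at h1
  exact (h.2.2 t ht).2 (by rw [← h1]; ring)

private theorem aux_pp {U : Set ℂ} {s : ℂ → ℂ} (h : SQ U s) :
    ContinuousOn (fun v : EQ => pp (s v.1) v) {v : EQ | v.1 ∈ U} := by
  unfold pp
  have h1 : ContinuousOn (fun v : EQ => v.2.1 + v.2.2.1) {v : EQ | v.1 ∈ U} := by fun_prop
  have h2 : ContinuousOn (fun v : EQ => 2 * v.2.2.2) {v : EQ | v.1 ∈ U} := by fun_prop
  exact h1.add (h2.div (aux_s h) (fun v hv => aux_s0 h hv))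

private theorem aux_rr {U : Set ℂ} {s : ℂ → ℂ} (h : SQ U s) :
    ContinuousOn (fun v : EQ => rr (s v.1) v) {v : EQ | v.1 ∈ U} := by
  unfold rr
  have h1 : ContinuousOn (fun v : EQ => v.2.1 + v.2.2.1) {v : EQ | v.1 ∈ U} := by fun_prop
  have h2 : ContinuousOn (fun v : EQ => 2 * v.2.2.2) {v : EQ | v.1 ∈ U} := by fun_prop
  exact h1.sub (h2.div (aux_s h) (fun v hv => aux_s0 h hv))

private theorem aux_dd {U : Set ℂ} : ContinuousOn (fun v : EQ => dd v) {v : EQ | v.1 ∈ U} := by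
  unfold dd
  fun_prop

private theorem aux_d4 {U : Set ℂ} {s : ℂ → ℂ} (h : SQ U s) :
    ContinuousOn (fun v : EQ => dd v + 4 / v.1) {v : EQ | v.1 ∈ U} :=
  aux_dd.add (continuousOn_const.div aux_fst (fun v hv => (h.2.2 v.1 hv).2))

private theorem aux_open {U : Set ℂ} {s : ℂ → ℂ} (h : SQ U s) {f g : EQ → ℂ}
    (hf : ContinuousOn f {v : EQ | v.1 ∈ U}) (hg : ContinuousOn g {v : EQ | v.1 ∈ U}) :
    IsOpen {v : EQ | v.1 ∈ U ∧ (f v ≠ 0 ∨ g v ≠ 0)} := by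
  have hU : IsOpen {v : EQ | v.1 ∈ U} := h.1.preimage continuous_fst
  have h1 := hf.isOpen_inter_preimage hU (isOpen_compl_singleton (x := (0 : ℂ)))
  have h2 := hg.isOpen_inter_preimage hU (isOpen_compl_singleton (x := (0 : ℂ)))
  have he : {v : EQ | v.1 ∈ U ∧ (f v ≠ 0 ∨ g v ≠ 0)} =
      ({v : EQ | v.1 ∈ U} ∩ f ⁻¹' {(0 : ℂ)}ᶜ) ∪ ({v : EQ | v.1 ∈ U} ∩ g ⁻¹' {(0 : ℂ)}ᶜ) := by
    ext v
    simp only [mem_setOf_eq, mem_union, mem_inter_iff, mem_preimage, mem_compl_iff,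
      mem_singleton_iff]
    tauto
  rw [he]
  exact h1.union h2

private theorem aux_den {x y : ℂ} (h : x ≠ 0 ∨ y ≠ 0) :
    x * (starRingEnd ℂ) x + y * (starRingEnd ℂ) y ≠ 0 := by
  rw [Complex.mul_conj, Complex.mul_conj, ← Complex.ofReal_add]
  have h1 : 0 ≤ Complex.normSq x := Complex.normSq_nonneg x
  have h2 : 0 ≤ Complex.normSq y := Complex.normSq_nonneg y
  rw [Ne, Complex.ofReal_eq_zero]
  rcases h with h | h
  · have := Complex.normSq_pos.mpr h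
    intro h3
    linarith
  · have := Complex.normSq_pos.mpr h
    intro h3
    linarith

private theorem aux_conj {A : Set EQ} {f : EQ → ℂ} (hf : ContinuousOn f A) :
    ContinuousOn (fun v => (starRingEnd ℂ) (f v)) A :=
  Complex.continuous_conj.comp_continuousOn hf

private theorem aux_q1 {U : Set ℂ} :
    ContinuousOn (fun q : ℂ × ℂ × ℂ => q.1) (U ×ˢ (univ : Set (ℂ × ℂ))) :=
  continuous_fst.continuousOn

theorem hPCT : StPCT := by
  intro U s h
  have hV1 : V1 U s ⊆ {v : EQ | v.1 ∈ U} := fun v hv => hv.1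
  have hV2 : V2 U s ⊆ {v : EQ | v.1 ∈ U} := fun v hv => hv.1
  have hs3 : ContinuousOn (fun q : ℂ × ℂ × ℂ => s q.1) (U ×ˢ (univ : Set (ℂ × ℂ))) :=
    h.2.1.comp aux_q1 (fun q hq => hq.1)
  have ht3 : ContinuousOn (fun q : ℂ × ℂ × ℂ => 4 / q.1) (U ×ˢ (univ : Set (ℂ × ℂ))) :=
    continuousOn_const.div aux_q1 (fun q hq => (h.2.2 q.1 hq.1).2)
  have ha : ContinuousOn (fun q : ℂ × ℂ × ℂ => q.2.1) (U ×ˢ (univ : Set (ℂ × ℂ))) := by fun_prop
  have hb : ContinuousOn (fun q : ℂ × ℂ × ℂ => q.2.2) (U ×ˢ (univ : Set (ℂ × ℂ))) := by fun_prop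
  have hpt : ∀ {f1 f2 f3 f4 f5 : ℂ × ℂ × ℂ → ℂ} {A : Set (ℂ × ℂ × ℂ)},
      ContinuousOn f1 A → ContinuousOn f2 A → ContinuousOn f3 A → ContinuousOn f4 A →
      ContinuousOn f5 A → ContinuousOn (fun q => pt (f1 q) (f2 q) (f3 q) (f4 q) (f5 q)) A := by
    intro f1 f2 f3 f4 f5 A h1 h2 h3 h4 h5
    unfold pt
    have e1 : ContinuousOn (fun q => (f4 q + f5 q) / 4 + f3 q / 2) A :=
      ((h4.add h5).div_const 4).add (h3.div_const 2)
    have e2 : ContinuousOn (fun q => (f4 q + f5 q) / 4 - f3 q / 2) A :=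
      ((h4.add h5).div_const 4).sub (h3.div_const 2)
    have e3 : ContinuousOn (fun q => f2 q * (f4 q - f5 q) / 4) A :=
      (h2.mul (h4.sub h5)).div_const 4
    exact h1.prodMk (e1.prodMk (e2.prodMk e3))
  refine ⟨?_, ?_, ?_, ?_, ?_, ?_, ?_, ?_⟩
  · exact aux_open h aux_dd (aux_rr h)
  · exact aux_open h (aux_pp h) (aux_d4 h)
  · have p1 := (aux_pp h).mono hV1
    have d1 : ContinuousOn (fun v : EQ => dd v) (V1 U s) := aux_dd.mono hV1
    have e1 := (aux_d4 h).mono hV1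
    have r1 := (aux_rr h).mono hV1
    unfold ze1
    exact ((p1.mul (aux_conj d1)).add (e1.mul (aux_conj r1))).div
      ((d1.mul (aux_conj d1)).add (r1.mul (aux_conj r1))) (fun v hv => aux_den hv.2)
  · have p1 := (aux_pp h).mono hV2
    have d1 : ContinuousOn (fun v : EQ => dd v) (V2 U s) := aux_dd.mono hV2
    have e1 := (aux_d4 h).mono hV2
    have r1 := (aux_rr h).mono hV2
    unfold ze2
    exact ((d1.mul (aux_conj p1)).add (r1.mul (aux_conj e1))).div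
      ((p1.mul (aux_conj p1)).add (e1.mul (aux_conj e1))) (fun v hv => aux_den hv.2)
  · exact (aux_rr h).mono hV1
  · exact (aux_pp h).mono hV2
  · unfold ch1
    have k := (ha.mul hb).sub ht3
    exact hpt aux_q1 hs3 k (ha.mul k) hb
  · unfold ch2
    have k := (ha.mul hb).add ht3
    exact hpt aux_q1 hs3 (ha.mul hb) hb (ha.mul k)

end Pool.Agent.Helper27.FX
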