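import Pool.Agent.Helper41.FX.StK2

/-! # Project FX, module STB (stage B of the chain) -/

set_option autoImplicit false

namespace Pool.Agent.Helper27.FX

open Polynomial Pool.Agent.Helper72.FX Pool.Agent.Helper41.FX

private def zeroAF (A : Type) [CommRing A] (P : MC A) (Λ : Type) [AddCommGroup Λ] : AF A P Λ where
  f := fun _ _ _ => 0
  exact' := by
    intro M N Q _ _ _ _ _ _ i p _ _ _ _ _
    simp

theorem hSTB : StPENC → StPMP → StNZP → StSTB := by
  intro hPENC hPMP hNZP B _ _ I E s Λ _ χB hχB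
  obtain ⟨χ, h1, h2⟩ := hPENC B I E s Λ χB (zeroAF B[X] _ Λ) (by
    intro N _ _ hf hk hE
    rw [hχB N hf hk hE]
    change (0 : Λ) = 0 - 0
    simp)
  refine ⟨χ, fun N _ _ hf hk hE => h1 N hf hk hE, ?_⟩
  intro J hIJ hJ
  have hfB : Module.Finite B (B ⧸ J) := inferInstance
  have hkB : kil I (B ⧸ J) := kil_mono hIJ (kil_quot J)
  have h3 := h2 (B ⧸ J) hfB hkB
  have hsub : Subsingleton (Kn (pel E s) (PolynomialModule B (B ⧸ J))) := by
    apply hNZP B E s (B ⧸ J)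
    intro m hm
    obtain ⟨r, rfl⟩ := Ideal.Quotient.mk_surjective m
    have h4 : (Ideal.Quotient.mk J (E * r) : B ⧸ J) = 0 := hm
    exact Ideal.Quotient.eq_zero_iff_mem.2 (hJ r (Ideal.Quotient.eq_zero_iff_mem.1 h4))
  have h5 : χ.f (Kn (pel E s) (PolynomialModule B (B ⧸ J))) = 0 :=
    AF.of_subsingleton χ (gd_kil _) _
  obtain ⟨⟨e⟩, -⟩ := hPMP B J (pel E s)
  have hk6 : kil (pid I E s) (B[X] ⧸ (J.map (C : B →+* B[X]) ⊔ Ideal.span {pel E s})) :=
    kil_mono (sup_le_sup_right (Ideal.map_mono hIJ) _) (kil_quot _)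
  have h6 : χ.f (Ck (pel E s) (PolynomialModule B (B ⧸ J))) =
      χ.f (B[X] ⧸ (J.map (C : B →+* B[X]) ⊔ Ideal.span {pel E s})) :=
    AF.equiv χ (gd_kil _) e inferInstance hk6
  rw [← h6, ← h3, h5, sub_zero]

end Pool.Agent.Helper27.FX
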